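import Pool.Agent.H28.LF.T3
import Pool.Agent.H40.AG.Base

/-!
Project LF (`MP_c59857_nt`, THEOREM U): row D4, the word of the last point is found.
-/

set_option autoImplicit false
set_option linter.unusedSectionVars false

open MeasureTheory ProbabilityTheory Filter Topology Finset
open scoped Nat ENNReal

namespace Pool.Agent.H63.LF

open Pool.Agent.H28.LF
open Pool.Agent.H67.AG (avgP ul Inv Rt Av SA kap JJ TT InvZ nxt triv tow XN PN TN XX PX TX prX Fac)
open Pool.Agent.H40.AG (QQ dg)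

section basic

variable (c : Ux)

theorem wd_meas (L : ℕ) : Measurable (c.wd L) :=
  measurable_pi_iff.2 fun l => c.am.comp (c.T.measurable.iterate (l : ℕ))

theorem Eqv_meas : MeasurableSet c.Eqv := by
  have h : c.Eqv = ⋂ n : ℕ, ({p : c.X × c.X | c.a (c.T^[n] p.1) = c.a (c.T^[n] p.2)} ∩
      {p | c.a (c.T.symm^[n] p.1) = c.a (c.T.symm^[n] p.2)}) := by
    ext p
    simp only [Ux.Eqv, Set.mem_ofPred_eq, Set.mem_iInter, Set.mem_inter_iff]
  rw [h]
  refine MeasurableSet.iInter fun n => MeasurableSet.inter ?_ ?_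
  · exact measurableSet_eq_fun ((c.am.comp (c.T.measurable.iterate n)).comp measurable_fst)
      ((c.am.comp (c.T.measurable.iterate n)).comp measurable_snd)
  · exact measurableSet_eq_fun ((c.am.comp (c.T.symm.measurable.iterate n)).comp measurable_fst)
      ((c.am.comp (c.T.symm.measurable.iterate n)).comp measurable_snd)

theorem wd_eqv (L : ℕ) {x x' : c.X} (h : (x', x) ∈ c.Eqv) : c.wd L x' = c.wd L x := by
  funext l
  exact (h (l : ℕ)).1

end basic

theorem pf_D4 (hdg : Pool.Agent.H40.AG.T_DGJ) (hpxl : Pool.Agent.H40.AG.T_PXL)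
    (hR : Pool.Agent.H40.AG.T_RPC) (hN : Pool.Agent.H40.AG.T_NCO) : T_D4 := by
  intro c Z c₀ L n R _ θ hZ hc0 hc1 hmass hfst hsnd hrep
  classical
  have hdgp := hdg c.X c.μ Z
  have : IsProbabilityMeasure (dg c.μ) := hdgp.1
  have hPp : IsProbabilityMeasure (PX c.μ Z (n + 1) (dg c.μ)) :=
    (hpxl c.X c.μ Z (n + 1) (dg c.μ) hdgp.2.1 hdgp.2.2.1).1
  have hBm : ∀ v : Fin L → Fin c.q, MeasurableSet
      {p : XN c.X (n + 1) | ∀ b, c.wd L (p.2 b) ≠ v} := by
    intro v
    have h3 : {p : XN c.X (n + 1) | ∀ b, c.wd L (p.2 b) ≠ v} =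
        ⋂ b, {p : XN c.X (n + 1) | c.wd L (p.2 b) = v}ᶜ := by
      ext p
      simp only [Set.mem_ofPred_eq, Set.mem_iInter, Set.mem_compl_iff]
    rw [h3]
    refine MeasurableSet.iInter fun b => MeasurableSet.compl ?_
    have h4 : Measurable fun p : XN c.X (n + 1) => c.wd L (p.2 b) :=
      (wd_meas c L).comp ((measurable_pi_apply b).comp measurable_snd)
    exact h4 (measurableSet_singleton v)
  have h1 := hR c.X c.μ Z (n + 1) R (Fin L → Fin c.q) (c.wd L)
    (fun v => {p : XN c.X (n + 1) | ∀ b, c.wd L (p.2 b) ≠ v}) hfst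
    (fun v => (wd_meas c L) (measurableSet_singleton v)) hBm
  have hset : {q : XX c.X (n + 1) | (q.1.1, q.2.1) ∈
      {p : XN c.X (n + 1) | ∀ b, c.wd L (p.2 b) ≠ c.wd L q.2.2}} = c.NF L n := rfl
  rw [hset] at h1
  have h2 := hN c.X c.μ Z (n + 1) c.Eqv Set.univ c₀ (Eqv_meas c) MeasurableSet.univ hc0.le hc1
    (hmass.mono fun x hx _ => hx)
  have h3 : (PX c.μ Z (n + 1) (dg c.μ)).real (c.NF L n) ≤
      (PX c.μ Z (n + 1) (dg c.μ)).real
        {q | q.2.2 ∈ Set.univ ∧ ∀ b, (q.2.1 b, q.2.2) ∉ c.Eqv} :=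
    measureReal_mono fun q hq => ⟨Set.mem_univ _, fun b hb => hq b (wd_eqv c L hb)⟩
  exact h1.trans (add_le_add (h3.trans h2) hrep)

end Pool.Agent.H63.LF
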