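import Pool.Agent.H28.LF.F1
import Pool.Agent.H67.AG.T3

/-!
Project LF (`MP_c59857_nt`, THEOREM U): row UXY, the data of the ergodic part from a component
with infinitely many good scales.
-/

set_option autoImplicit false

open MeasureTheory ProbabilityTheory Filter Topology Finset
open scoped Nat ENNReal

namespace Pool.Agent.H63.LF

open Pool.Agent.H28.LF
open Pool.Agent.H24.T2 (Pset MRprop)
open Pool.Agent.H67.AG (avgP ul Inv Rt Av)

theorem avgP_abs (m : ℕ) (f : ℕ → ℝ) (hf : ∀ p, |f p| ≤ 1) : |avgP 2 m f| ≤ 1 := by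
  unfold avgP
  rw [abs_div, Nat.abs_cast]
  rcases Nat.eq_zero_or_pos (Pset 2 m).card with h | h
  · rw [h]
    simp
  · rw [div_le_one (by exact_mod_cast h)]
    exact (Finset.abs_sum_le_sum_abs _ _).trans
      ((Finset.sum_le_sum fun p _ => hf p).trans (by simp))

theorem exists_U (G : ℕ → Set ℕ) (hne : ∀ i, (G i).Nonempty) (hmono : ∀ i j, i ≤ j → G j ⊆ G i)
    (hge : ∀ i m, m ∈ G i → i ≤ m) :
    ∃ U : Ultrafilter ℕ, (U : Filter ℕ) ≤ atTop ∧ ∀ i, G i ∈ (U : Filter ℕ) := by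
  have hnb : (⨅ i, 𝓟 (G i)).NeBot := by
    refine Filter.iInf_neBot_of_directed ?_ fun i => Filter.principal_neBot_iff.2 (hne i)
    intro i j
    exact ⟨max i j, principal_mono.2 (hmono _ _ (le_max_left _ _)),
      principal_mono.2 (hmono _ _ (le_max_right _ _))⟩
  refine ⟨Ultrafilter.of (⨅ i, 𝓟 (G i)), ?_, ?_⟩
  · refine (Ultrafilter.of_le _).trans ?_
    exact le_iInf fun a => (iInf_le _ a).trans (principal_mono.2 fun m hm => hge a m hm)
  · intro i
    exact Ultrafilter.of_le _ (Filter.mem_iInf_of_mem i (Filter.mem_principal_self _))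

theorem sY_val (F : Set Xi) (ν : Measure Yi) (p : ℕ) : sY F ν p = 0 ∨ sY F ν p = 1 := by
  unfold sY
  split_ifs
  · exact Or.inr rfl
  · exact Or.inl rfl

theorem btY_meas : Measurable btY := measurable_fst.comp (measurable_pi_apply (0 : ℤ))

theorem pf_UXY (hT : T_THC) (hR : T_RLY) (hN : T_NPC) (hC : T_COD)
    (hU : Pool.Agent.H67.AG.T_UL) : T_UXY := by
  intro u ix c z ζ γ₀ ν F B Kr hu hix hc hζ hz hzc hsep hγ hν hF hFi hB hKr hgd hfr
  classical
  have hνp : IsProbabilityMeasure ν := hν.prob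
  -- the frequencies
  have hth : ∀ p : ℕ, ∃ t : ℝ, p.Prime → ∀ᵐ ω ∂ν, thX (xiY p ω) = t := by
    intro p
    by_cases hp : p.Prime
    · obtain ⟨t, ht⟩ := (hT ν F hν hF hFi p hp).1
      exact ⟨t, fun _ => ht⟩
    · exact ⟨0, fun h => absurd h hp⟩
  choose θ hθ using hth
  -- the ultrafilter
  obtain ⟨U, hUt, hUG⟩ := exists_U (fun i₀ => {m | ∃ i, i₀ ≤ i ∧ GoodC F B γ₀ ν i m})
    (by
      intro i₀
      obtain ⟨i, hi, m, hm⟩ := (Filter.frequently_atTop.1 hfr) i₀
      exact ⟨m, i, hi, hm⟩)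
    (by
      rintro i j hij m ⟨i', hi', hm⟩
      exact ⟨i', hij.trans hi', hm⟩)
    (by
      rintro i m ⟨i', hi', hm⟩
      exact hi'.trans hm.le)
  obtain ⟨-, hUle, -, -, hUc⟩ := hU U
  have hsv : ∀ p, |sY F ν p| ≤ 1 := by
    intro p
    rcases sY_val F ν p with h | h <;> rw [h] <;> simp
  have hprod : ∀ (A : ℕ → Set Yi) (p : ℕ), |sY F ν p * ν.real (A p)| ≤ 1 := by
    intro A p
    rw [abs_mul]
    refine mul_le_one₀ (hsv p) (abs_nonneg _) ?_
    rw [abs_of_nonneg measureReal_nonneg]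
    exact measureReal_le_one
  refine ⟨{ X := Yi, μ := ν, pμ := hνp, T := shY, erg := hν.erg, q := 4,
            a := fun ω => ix (ng (btY ω)), am := ?_, np := hN u ix ν hu hix hν, U := U,
            hU := hUt, s := sY F ν, sv := sY_val F ν, γ := γ₀ / 2, γ0 := half_pos hγ, hγ := ?_,
            Bad := fun K L p => BadW u ix c z K L (θ p),
            code := fun K L p => hC u ix c z ζ K L (θ p) hu hix hc hζ hz hzc hsep,
            rel := ?_ }⟩
  · exact (measurable_of_countable (fun b : Bool × Bool => ix (ng b))).comp btY_meas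
  · unfold ds
    have h1 : ul U (fun _ => γ₀ / 2) ≤ ul U fun m => avgP 2 m (sY F ν) := by
      refine hUle _ _ ⟨|γ₀ / 2|, fun _ => le_rfl⟩ ⟨1, fun m => avgP_abs m _ hsv⟩ ?_
      filter_upwards [hUG 0] with m hm
      obtain ⟨i, _, hi⟩ := hm
      exact hi.dens
    rwa [hUc] at h1
  · intro η hη
    obtain ⟨r, hr⟩ : ∃ r : ℕ, 20 / (2 : ℝ) ^ r ≤ η / 2 := by
      obtain ⟨r, hr⟩ := pow_unbounded_of_one_lt (40 / η) (one_lt_two (α := ℝ))
      refine ⟨r, ?_⟩
      rw [div_le_iff₀ (by positivity)]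
      rw [div_lt_iff₀ hη] at hr
      linarith
    obtain ⟨i₀, hi₀⟩ : ∃ i₀ : ℕ, 24 / η ≤ i₀ := exists_nat_ge _
    refine ⟨Kr r, hKr r, fun L _ => ?_⟩
    unfold La
    have h1 : ul U (fun m => avgP 2 m fun p => sY F ν p * ν.real (Set.univ ∩
        {ω | Wd shY (fun ω => ix (ng (btY ω))) (L + Kr r) p ω ∈
          BadW u ix c z (Kr r) L (θ p)})) ≤ ul U fun _ => η := by
      refine hUle _ _ ⟨1, fun m => avgP_abs m _ (hprod _)⟩ ⟨|η|, fun _ => le_rfl⟩ ?_
      filter_upwards [hUG (max i₀ (L + Kr r))] with m hm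
      obtain ⟨i, hi, hg⟩ := hm
      have h2 := hR u ix c z γ₀ ν F B θ (Kr r) L i m r hν hF hB (fun p hp => hθ p hp)
        (fun p hp => hgd r L p hp) ((le_max_right _ _).trans hi) hg
      simp only [Set.univ_inter]
      refine h2.trans ?_
      have h3 : 12 / ((i : ℝ) + 1) ≤ η / 2 := by
        have h4 : (i₀ : ℝ) ≤ i := by exact_mod_cast (le_max_left _ _).trans hi
        have h5 : 24 / η ≤ (i : ℝ) + 1 := by linarith
        rw [div_le_iff₀ hη] at h5
        rw [div_le_iff₀ (by positivity)]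
        linarith
      linarith
    rwa [hUc] at h1

end Pool.Agent.H63.LF
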