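import Pool.Agent.H25.LF.Targets

/-!
# MP_04ff0f_nt, board lpf_modules: module HIG
-/

set_option autoImplicit false

open Finset Real ArithmeticFunction

namespace Pool.Agent.H63.LF

open Pool.Agent.H25.LF
open Pool.Agent.H30.BV (gg)
open Pool.Agent.H30.PF (S8)

theorem mem_PR {z : ℝ} (hz : 0 ≤ z) (l : ℕ) : l ∈ PR z ↔ l.Prime ∧ (l : ℝ) ≤ z := by
  unfold PR
  rw [Finset.mem_filter, Finset.mem_Icc, Nat.le_floor_iff hz]
  constructor
  · rintro ⟨⟨-, h1⟩, h2⟩
    exact ⟨h2, h1⟩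
  · rintro ⟨h1, h2⟩
    exact ⟨⟨h1.one_lt.le, h2⟩, h1⟩

theorem SL_add {y w z : ℝ} (hw : 0 ≤ w) (hyw : y ≤ w) (hwz : w ≤ z) (f : ℕ → ℝ) :
    SL y z f = SL y w f + SL w z f := by
  unfold SL
  rw [← Finset.sum_filter_add_sum_filter_not ((PR z).filter (fun l : ℕ => y < (l : ℝ)))
    (fun l : ℕ => (l : ℝ) ≤ w)]
  congr 1
  · refine Finset.sum_congr ?_ fun _ _ => rfl
    ext l
    rw [Finset.mem_filter, Finset.mem_filter, Finset.mem_filter, mem_PR (hw.trans hwz), mem_PR hw]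
    constructor
    · rintro ⟨⟨⟨h1, h2⟩, h3⟩, h4⟩
      exact ⟨⟨h1, h4⟩, h3⟩
    · rintro ⟨⟨h1, h2⟩, h3⟩
      exact ⟨⟨⟨h1, h2.trans hwz⟩, h3⟩, h2⟩
  · refine Finset.sum_congr ?_ fun _ _ => rfl
    ext l
    rw [Finset.mem_filter, Finset.mem_filter, Finset.mem_filter, mem_PR (hw.trans hwz)]
    constructor
    · rintro ⟨⟨⟨h1, h2⟩, h3⟩, h4⟩
      exact ⟨⟨h1, h2⟩, not_le.1 h4⟩
    · rintro ⟨⟨h1, h2⟩, h3⟩
      exact ⟨⟨⟨h1, h2⟩, hyw.trans_lt h3⟩, not_le.2 h3⟩

theorem SL_self {y : ℝ} (hy : 0 ≤ y) (f : ℕ → ℝ) : SL y y f = 0 := by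
  unfold SL
  refine Finset.sum_eq_zero fun l hl => ?_
  rw [Finset.mem_filter, mem_PR hy] at hl
  exact absurd hl.2 (not_lt.2 hl.1.2)

theorem SL_mono {y z : ℝ} (hz : 0 ≤ z) {f g : ℕ → ℝ}
    (h : ∀ l : ℕ, l.Prime → y < (l : ℝ) → (l : ℝ) ≤ z → f l ≤ g l) : SL y z f ≤ SL y z g := by
  unfold SL
  refine Finset.sum_le_sum fun l hl => ?_
  rw [Finset.mem_filter, mem_PR hz] at hl
  refine mul_le_mul_of_nonneg_left (h l hl.1.1 hl.2 hl.1.2) (Real.log_nonneg ?_)
  exact_mod_cast hl.1.1.one_lt.le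

theorem SL_smul {y z : ℝ} (c : ℝ) (f : ℕ → ℝ) : SL y z (fun l => f l * c) = SL y z f * c := by
  unfold SL
  rw [Finset.sum_mul]
  exact Finset.sum_congr rfl fun l _ => by ring

theorem SL_pieces {x : ℝ} (hx : 1 ≤ x) (u : ℕ → ℝ) (hu : ∀ j, u j ≤ u (j + 1)) (f : ℕ → ℝ)
    (J : ℕ) : SL (x ^ u 0) (x ^ u J) f =
      ∑ j ∈ Finset.range J, SL (x ^ u j) (x ^ u (j + 1)) f := by
  have hx0 : 0 < x := by linarith
  induction J with
  | zero => rw [Finset.sum_range_zero, SL_self (Real.rpow_nonneg hx0.le _)]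
  | succ J ih =>
    rw [Finset.sum_range_succ, ← ih]
    refine SL_add (Real.rpow_nonneg hx0.le _) ?_ ?_ f
    · exact Real.rpow_le_rpow_of_exponent_le hx (monotone_nat_of_le_succ hu (Nat.zero_le J))
    · exact Real.rpow_le_rpow_of_exponent_le hx (hu J)

/-- the Riemann sum -/
theorem riemann {θ : ℝ} (h1 : 1 / 2 ≤ θ) (h2 : θ < 1) {J : ℕ} (hJ : 0 < J) :
    ∑ j ∈ Finset.range J, ((θ - 1 / 2) / J) / (1 - (1 / 2 + (j + 1 : ℕ) * ((θ - 1 / 2) / J))) ≤
      Real.log (1 / (2 * (1 - θ))) + 1 / (4 * J * (1 - θ) ^ 2) := by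
  have hJ' : (0 : ℝ) < J := by exact_mod_cast hJ
  obtain ⟨h, hh⟩ : ∃ h : ℝ, h = (θ - 1 / 2) / J := ⟨_, rfl⟩
  have h0 : 0 ≤ h := by
    rw [hh]
    exact div_nonneg (by linarith) hJ'.le
  have hhJ : J * h = θ - 1 / 2 := by
    rw [hh]
    field_simp
  rw [← hh]
  obtain ⟨v, hv⟩ : ∃ v : ℕ → ℝ, v = fun j : ℕ => 1 / 2 - (j : ℝ) * h := ⟨_, rfl⟩
  have hvl : ∀ j ≤ J, 1 - θ ≤ v j := by
    intro j hj
    have h3 : (j : ℝ) ≤ J := by exact_mod_cast hj
    have h4 : (j : ℝ) * h ≤ J * h := mul_le_mul_of_nonneg_right h3 h0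
    rw [hv]
    show 1 - θ ≤ 1 / 2 - (j : ℝ) * h
    linarith
  have hθ : 0 < 1 - θ := by linarith
  have key : ∀ j ∈ Finset.range J, h / (1 - (1 / 2 + (j + 1 : ℕ) * h)) ≤
      (Real.log (v j) - Real.log (v (j + 1))) + h ^ 2 / (1 - θ) ^ 2 := by
    intro j hj
    rw [Finset.mem_range] at hj
    have a1 := hvl j hj.le
    have a2 := hvl (j + 1) hj
    have b1 : 0 < v j := hθ.trans_le a1
    have b2 : 0 < v (j + 1) := hθ.trans_le a2
    have e1 : (1 : ℝ) - (1 / 2 + (j + 1 : ℕ) * h) = v (j + 1) := by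
      rw [hv]
      ring
    have e2 : v j - v (j + 1) = h := by
      rw [hv]
      push_cast
      ring
    rw [e1, ← Real.log_div b1.ne' b2.ne']
    have c1 := Real.one_sub_inv_le_log_of_pos (div_pos b1 b2)
    have c2 : 1 - (v j / v (j + 1))⁻¹ = h / v j := by
      rw [inv_div, ← e2]
      field_simp
    rw [c2] at c1
    have c3 : h / v (j + 1) = h / v j + h ^ 2 / (v j * v (j + 1)) := by
      field_simp
      rw [← e2]
      ring
    have c4 : h ^ 2 / (v j * v (j + 1)) ≤ h ^ 2 / (1 - θ) ^ 2 := by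
      refine div_le_div_of_nonneg_left (sq_nonneg h) (by positivity) ?_
      rw [sq]
      exact mul_le_mul a1 a2 hθ.le b1.le
    linarith
  refine (Finset.sum_le_sum key).trans ?_
  rw [Finset.sum_add_distrib, Finset.sum_range_sub' (fun j => Real.log (v j)), Finset.sum_const,
    Finset.card_range, nsmul_eq_mul]
  have e3 : v 0 = 1 / 2 := by
    rw [hv]
    simp
  have e4 : v J = 1 - θ := by
    rw [hv]
    show 1 / 2 - (J : ℝ) * h = 1 - θ
    linarith
  have e5 : Real.log (v 0) - Real.log (v J) = Real.log (1 / (2 * (1 - θ))) := by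
    rw [e3, e4, ← Real.log_div (by norm_num) hθ.ne']
    congr 1
    field_simp
  have e6 : (J : ℝ) * (h ^ 2 / (1 - θ) ^ 2) ≤ 1 / (4 * J * (1 - θ) ^ 2) := by
    have d1 : (J : ℝ) * h ^ 2 = (θ - 1 / 2) ^ 2 / J := by
      rw [hh]
      field_simp
    have d2 : (θ - 1 / 2) ^ 2 ≤ 1 / 4 := by nlinarith
    have d3 : (J : ℝ) * (h ^ 2 / (1 - θ) ^ 2) = (θ - 1 / 2) ^ 2 / J / (1 - θ) ^ 2 := by
      rw [← d1]
      ring
    rw [d3, div_div, div_le_div_iff₀ (by positivity) (by positivity)]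
    have d4 : 0 ≤ (J : ℝ) * (1 - θ) ^ 2 := by positivity
    nlinarith
  linarith

theorem pf_HIG (hNNB : T_NNB) (hMER : T_MER) : T_HIG := by
  intro θ δ h1 h2 hδ
  obtain ⟨C, hC, hmer⟩ := hMER
  have hθ : 0 < 1 - θ := by linarith
  obtain ⟨lam, hlam⟩ : ∃ lam : ℝ, lam = Real.log (1 / (2 * (1 - θ))) := ⟨_, rfl⟩
  have hlam0 : 0 ≤ lam := by
    rw [hlam]
    refine Real.log_nonneg ?_
    rw [le_div_iff₀ (by positivity)]
    linarith
  obtain ⟨J, hJ⟩ := exists_nat_gt (9 / (4 * (1 - θ) ^ 2 * δ))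
  have hJ0 : (0 : ℝ) < J := lt_of_le_of_lt (by positivity) hJ
  have hJN : 0 < J := by exact_mod_cast hJ0
  obtain ⟨η, hη⟩ : ∃ η : ℝ, η = min 1 (δ / (3 * (lam + 1))) := ⟨_, rfl⟩
  have hη0 : 0 < η := by
    rw [hη]
    exact lt_min one_pos (by positivity)
  have hη1 : η ≤ 1 := by
    rw [hη]
    exact min_le_left _ _
  have hη2 : η * lam ≤ δ / 3 := by
    have h3 : η ≤ δ / (3 * (lam + 1)) := by
      rw [hη]
      exact min_le_right _ _
    calc η * lam ≤ δ / (3 * (lam + 1)) * lam := mul_le_mul_of_nonneg_right h3 hlam0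
      _ ≤ δ / 3 := by
        rw [div_mul_eq_mul_div, div_le_div_iff₀ (by positivity) (by norm_num)]
        nlinarith [mul_nonneg hδ.le hlam0]
  obtain ⟨Y, hY2, hY⟩ := hNNB η hη0
  refine ⟨max (max 4 (Y ^ (1 / (1 - θ)))) (Real.exp (9 * C * J / ((1 - θ) * δ))), ?_⟩
  intro x hx
  have hx4 : 4 ≤ x := (le_max_left _ _).trans ((le_max_left _ _).trans hx)
  have hxY : Y ^ (1 / (1 - θ)) ≤ x := (le_max_right _ _).trans ((le_max_left _ _).trans hx)
  have hxE : Real.exp (9 * C * J / ((1 - θ) * δ)) ≤ x := (le_max_right _ _).trans hx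
  have hx0 : 0 < x := by linarith
  have hx1 : 1 ≤ x := by linarith
  obtain ⟨L, hL⟩ : ∃ L : ℝ, L = Real.log x := ⟨_, rfl⟩
  have hLE : 9 * C * J / ((1 - θ) * δ) ≤ L := by
    rw [hL, Real.le_log_iff_exp_le hx0]
    exact hxE
  have hL0 : 0 < L := lt_of_lt_of_le (by positivity) hLE
  have hYx : Y * x ^ θ ≤ x := by
    have h3 : Y ≤ x ^ (1 - θ) := by
      have h4 := Real.rpow_le_rpow (by positivity) hxY hθ.le
      rwa [← Real.rpow_mul (by linarith), one_div, inv_mul_cancel₀ hθ.ne', Real.rpow_one] at h4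
    calc Y * x ^ θ ≤ x ^ (1 - θ) * x ^ θ :=
          mul_le_mul_of_nonneg_right h3 (Real.rpow_nonneg hx0.le _)
      _ = x := by
        rw [← Real.rpow_add hx0]
        norm_num
  obtain ⟨u, hu⟩ : ∃ u : ℕ → ℝ, u = fun j : ℕ => 1 / 2 + (j : ℝ) * ((θ - 1 / 2) / J) := ⟨_, rfl⟩
  have hh0 : 0 ≤ (θ - 1 / 2) / J := div_nonneg (by linarith) hJ0.le
  have hus : ∀ j, u (j + 1) = u j + (θ - 1 / 2) / J := by
    intro j
    rw [hu]
    push_cast
    ring
  have hum : ∀ j, u j ≤ u (j + 1) := fun j => by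
    rw [hus]
    linarith
  have hu0 : u 0 = 1 / 2 := by
    rw [hu]
    simp
  have huJ : u J = θ := by
    rw [hu]
    show 1 / 2 + (J : ℝ) * ((θ - 1 / 2) / J) = θ
    field_simp
    ring
  have hule : ∀ j ≤ J, u j ≤ θ := fun j hj => by
    rw [← huJ]
    exact monotone_nat_of_le_succ hum hj
  have hpc := SL_pieces hx1 u hum (NN x) J
  rw [hu0, huJ] at hpc
  rw [hpc]
  -- one piece
  have piece : ∀ j ∈ Finset.range J, SL (x ^ u j) (x ^ u (j + 1)) (NN x) ≤
      (2 + η) * x * (((θ - 1 / 2) / J) / (1 - (1 / 2 + (j + 1 : ℕ) * ((θ - 1 / 2) / J))) +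
        C / ((1 - θ) * L)) := by
    intro j hj
    rw [Finset.mem_range] at hj
    have hj1 : u (j + 1) ≤ θ := hule (j + 1) hj
    have hv : 0 < 1 - u (j + 1) := by linarith
    have hbd : SL (x ^ u j) (x ^ u (j + 1)) (NN x) ≤ SL (x ^ u j) (x ^ u (j + 1))
        (fun l => gg l * ((2 + η) * x / ((1 - u (j + 1)) * L))) := by
      refine SL_mono (Real.rpow_nonneg hx0.le _) fun l hl hyl hlz => ?_
      have hl0 : (0 : ℝ) < l := by exact_mod_cast hl.pos
      have hlθ : (l : ℝ) ≤ x ^ θ :=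
        hlz.trans (Real.rpow_le_rpow_of_exponent_le hx1 hj1)
      have hl2 : l ≠ 2 := by
        rintro rfl
        have h3 : (2 : ℝ) ≤ x ^ u j := by
          have h5 : (1 / 2 : ℝ) ≤ u j := by
            rw [← hu0]
            exact monotone_nat_of_le_succ hum (Nat.zero_le j)
          calc (2 : ℝ) = (4 : ℝ) ^ (1 / 2 : ℝ) := by
                rw [← Real.sqrt_eq_rpow, show (4 : ℝ) = 2 ^ 2 by norm_num,
                  Real.sqrt_sq (by norm_num)]
            _ ≤ x ^ (1 / 2 : ℝ) := Real.rpow_le_rpow (by norm_num) hx4 (by norm_num)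
            _ ≤ x ^ u j := Real.rpow_le_rpow_of_exponent_le hx1 h5
        have h4 : x ^ u j < 2 := by exact_mod_cast hyl
        linarith
      have hlx : Y * (l : ℝ) ^ 1 ≤ x := by
        rw [pow_one]
        exact (mul_le_mul_of_nonneg_left hlθ (by linarith)).trans hYx
      have h3 := hY x l 1 hl hl2 le_rfl hlx
      rw [pow_one, pow_one] at h3
      rw [Nat.totient_prime hl, Nat.cast_pred hl.pos] at h3
      refine h3.trans ?_
      have hl1 : (0 : ℝ) < (l : ℝ) - 1 := by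
        have : (1 : ℝ) < l := by exact_mod_cast hl.one_lt
        linarith
      have hlog : (1 - u (j + 1)) * L ≤ Real.log (x / l) := by
        rw [Real.log_div hx0.ne' hl0.ne']
        have h4 : Real.log l ≤ u (j + 1) * L := by
          rw [hL, ← Real.log_rpow hx0]
          exact Real.log_le_log hl0 hlz
        rw [← hL]
        linarith
      have hden : 0 < (1 - u (j + 1)) * L := mul_pos hv hL0
      unfold gg
      by_cases hS : S8 l
      · rw [if_pos hS, if_pos hS]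
        have h5 : (2 + η) * x / (((l : ℝ) - 1) * Real.log (x / l)) ≤
            (2 + η) * x / (((l : ℝ) - 1) * ((1 - u (j + 1)) * L)) := by
          refine div_le_div_of_nonneg_left (by positivity) (mul_pos hl1 hden) ?_
          exact mul_le_mul_of_nonneg_left hlog hl1.le
        calc 2 * ((2 + η) * x / (((l : ℝ) - 1) * Real.log (x / l))) ≤
            2 * ((2 + η) * x / (((l : ℝ) - 1) * ((1 - u (j + 1)) * L))) := by linarith
          _ = 2 / ((l : ℝ) - 1) * ((2 + η) * x / ((1 - u (j + 1)) * L)) := by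
            field_simp
      · rw [if_neg hS, if_neg hS, zero_mul, zero_mul]
    refine hbd.trans ?_
    rw [SL_smul]
    have hm := hmer (x ^ u j) (x ^ u (j + 1)) (Real.one_le_rpow hx1 (by
      have : (1 / 2 : ℝ) ≤ u j := by
        rw [← hu0]
        exact monotone_nat_of_le_succ hum (Nat.zero_le j)
      linarith)) (Real.rpow_le_rpow_of_exponent_le hx1 (hum j))
    have hlg : Real.log (x ^ u (j + 1) / x ^ u j) = (θ - 1 / 2) / J * L := by
      rw [← Real.rpow_sub hx0, Real.log_rpow hx0, hus, ← hL]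
      ring
    rw [hlg] at hm
    have e1 : (1 : ℝ) - (1 / 2 + (j + 1 : ℕ) * ((θ - 1 / 2) / J)) = 1 - u (j + 1) := by
      rw [hu]
    rw [e1]
    have hden : 0 < (1 - u (j + 1)) * L := mul_pos hv hL0
    calc SL (x ^ u j) (x ^ u (j + 1)) gg * ((2 + η) * x / ((1 - u (j + 1)) * L)) ≤
        ((θ - 1 / 2) / J * L + C) * ((2 + η) * x / ((1 - u (j + 1)) * L)) :=
          mul_le_mul_of_nonneg_right hm (by positivity)
      _ = (2 + η) * x * ((θ - 1 / 2) / J / (1 - u (j + 1)) + C / ((1 - u (j + 1)) * L)) := by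
          field_simp
      _ ≤ (2 + η) * x * ((θ - 1 / 2) / J / (1 - u (j + 1)) + C / ((1 - θ) * L)) := by
          refine mul_le_mul_of_nonneg_left ?_ (by positivity)
          have h6 : C / ((1 - u (j + 1)) * L) ≤ C / ((1 - θ) * L) :=
            div_le_div_of_nonneg_left hC.le (by positivity)
              (mul_le_mul_of_nonneg_right (by linarith) hL0.le)
          linarith
  refine (Finset.sum_le_sum piece).trans ?_
  rw [← Finset.mul_sum, Finset.sum_add_distrib, Finset.sum_const, Finset.card_range, nsmul_eq_mul,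
    ← hlam]
  have hr := riemann h1 h2 hJN
  rw [← hlam] at hr
  have a1 : 1 / (4 * (J : ℝ) * (1 - θ) ^ 2) ≤ δ / 9 := by
    have h3 : 9 / (4 * (1 - θ) ^ 2 * δ) ≤ J := hJ.le
    rw [div_le_iff₀ (by positivity)] at h3
    rw [div_le_div_iff₀ (by positivity) (by norm_num)]
    linarith
  have a2 : (J : ℝ) * (C / ((1 - θ) * L)) ≤ δ / 9 := by
    have h3 := hLE
    rw [div_le_iff₀ (by positivity)] at h3
    rw [mul_div_assoc', div_le_div_iff₀ (by positivity) (by norm_num)]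
    linarith
  have hS : ∑ j ∈ Finset.range J, ((θ - 1 / 2) / J) /
      (1 - (1 / 2 + (j + 1 : ℕ) * ((θ - 1 / 2) / J))) + (J : ℝ) * (C / ((1 - θ) * L)) ≤
      lam + 2 * (δ / 9) := by linarith
  calc (2 + η) * x * (∑ j ∈ Finset.range J, ((θ - 1 / 2) / J) /
        (1 - (1 / 2 + (j + 1 : ℕ) * ((θ - 1 / 2) / J))) + (J : ℝ) * (C / ((1 - θ) * L))) ≤
      (2 + η) * x * (lam + 2 * (δ / 9)) := mul_le_mul_of_nonneg_left hS (by positivity)
    _ = (2 * lam + η * lam + (2 + η) * (2 * (δ / 9))) * x := by ring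
    _ ≤ (2 * lam + δ) * x := by
      refine mul_le_mul_of_nonneg_right ?_ hx0.le
      have h7 : (2 + η) * (2 * (δ / 9)) ≤ 3 * (2 * (δ / 9)) :=
        mul_le_mul_of_nonneg_right (by linarith) (by positivity)
      linarith

end Pool.Agent.H63.LF
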